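import Pool.Agent.Lib_helper36.Abund.HallFull

/-!
# The question of O'Brien and Shalev: small centralizers in `p`-groups of bounded abundance
-/

set_option autoImplicit false

universe u

namespace Pool.Agent.Results.MP_7221b6_al.SmallCentralizers

/-- `a` is the abundance of the finite `p`-group `P`: if `|P| = p ^ (2 n + e)` with `e` equal to
`0` or `1`, then the number of conjugacy classes of `P` equals
`n (p ^ 2 - 1) + p ^ e + a (p ^ 2 - 1) (p - 1)` (an equality of integers). -/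
def IsAbundance (p : ℕ) (P : Type u) [Group P] (a : ℕ) : Prop :=
  ∃ n e : ℕ, (e = 0 ∨ e = 1) ∧ Nat.card P = p ^ (2 * n + e) ∧
    (Nat.card (ConjClasses P) : ℤ) =
      n * ((p : ℤ) ^ 2 - 1) + (p : ℤ) ^ e + a * ((p : ℤ) ^ 2 - 1) * ((p : ℤ) - 1)

/-- Every finite `p`-group `P` has exactly one abundance `a`; moreover the class number of `P` is
at most `p ^ (5 (a + 6))`, and some element of `P` has a centralizer of order at most
`p ^ (5 (a + 6))`. -/
theorem result (p : ℕ) (hp : p.Prime) (P : Type u) [Group P] [Finite P] (hP : IsPGroup p P) :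
    ∃ a : ℕ, IsAbundance p P a ∧ (∀ b : ℕ, IsAbundance p P b → b = a) ∧
      Nat.card (ConjClasses P) ≤ p ^ (5 * (a + 6)) ∧
      ∃ s : P, Nat.card (Subgroup.centralizer ({s} : Set P)) ≤ p ^ (5 * (a + 6)) := by
  have : Fact p.Prime := ⟨hp⟩
  have : Fintype P := Fintype.ofFinite P
  have hp2 : (2 : ℤ) ≤ p := by exact_mod_cast hp.two_le
  obtain ⟨m, hm⟩ := IsPGroup.iff_card.1 hP
  have hme : m = 2 * (m / 2) + m % 2 := by omega
  have he : m % 2 < 2 := Nat.mod_lt _ (by norm_num)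
  rw [hme] at hm
  obtain ⟨a, ha⟩ := Pool.Agent.Abund.exists_abundance hP hm he
  refine ⟨a, ⟨m / 2, m % 2, by omega, hm, ?_⟩, ?_, ?_, ?_⟩
  · rw [Pool.Agent.Abund.kk] at ha
    rw [ha]
    ring
  · rintro b ⟨n, e, he', hn, hb⟩
    have h1 : p ^ (2 * n + e) = p ^ (2 * (m / 2) + m % 2) := by rw [← hn, hm]
    have h2 : 2 * n + e = 2 * (m / 2) + m % 2 := Nat.pow_right_injective hp.two_le h1
    have h3 : n = m / 2 := by omega
    have h4 : e = m % 2 := by omega
    rw [Pool.Agent.Abund.kk, hb, h3, h4] at ha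
    have h5 : (b : ℤ) * (((p : ℤ) ^ 2 - 1) * ((p : ℤ) - 1)) =
        a * (((p : ℤ) ^ 2 - 1) * ((p : ℤ) - 1)) := by linarith
    have h6 : (((p : ℤ) ^ 2 - 1) * ((p : ℤ) - 1)) ≠ 0 := by
      have : 0 < ((p : ℤ) ^ 2 - 1) * ((p : ℤ) - 1) := by
        apply mul_pos <;> nlinarith
      exact this.ne'
    exact_mod_cast mul_right_cancel₀ h6 h5
  · exact Pool.Agent.Abund.kk_bound hP (m / 2) (m % 2) a he hm ha
  · obtain ⟨s, hs⟩ := Pool.Agent.Abund.exists_cc_le (Q := P)
    exact ⟨s, le_trans hs (Pool.Agent.Abund.kk_bound hP (m / 2) (m % 2) a he hm ha)⟩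

end Pool.Agent.Results.MP_7221b6_al.SmallCentralizers
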